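import Mathlib
import Pool.Agent.Helper33.BaseChange
import Pool.Agent.Helper33.FiniteExt

/-!
Every smoothable finite algebra over an algebraically closed field has a completely split
abstract smoothing of approximation degree zero.
-/

open PowerSeries Module
open scoped LaurentSeries TensorProduct

namespace Pool.Agent.Results.MP_a8f336_ag.SplitSmoothing

universe u

/-- `S` is an abstract smoothing of the `k`-algebra `A`: a finite flat `k⟦t⟧`-algebra with
geometrically reduced generic fibre and with special fibre `S / t S` isomorphic to `A` as a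
`k`-algebra. -/
structure IsAbstractSmoothing (k : Type u) [Field k] (A : Type u) [CommRing A] [Algebra k A]
    (S : Type u) [CommRing S] [Algebra k⟦X⟧ S] : Prop where
  finite : Module.Finite k⟦X⟧ S
  flat : Module.Flat k⟦X⟧ S
  geomReduced : Algebra.IsGeometricallyReduced k⸨X⸩ (k⸨X⸩ ⊗[k⟦X⟧] S)
  specialFibre : ∃ e : (S ⧸ Ideal.span {algebraMap k⟦X⟧ S X}) ≃+* A,
    ∀ c : k, e (Ideal.Quotient.mk _ (algebraMap k⟦X⟧ S (C c))) = algebraMap k A c

/-- `Spec A` is smoothable: `A` has an abstract smoothing. -/
def IsSmoothable (k : Type u) [Field k] (A : Type u) [CommRing A] [Algebra k A] : Prop :=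
  ∃ (S : Type u) (_ : CommRing S) (_ : Algebra k⟦X⟧ S), IsAbstractSmoothing k A S

/-- The generic fibre of `S` is the product of `d` copies of `k((t))`. -/
def IsCompletelySplit (k : Type u) [Field k] (d : ℕ) (S : Type u) [CommRing S]
    [Algebra k⟦X⟧ S] : Prop :=
  Nonempty ((k⸨X⸩ ⊗[k⟦X⟧] S) ≃ₐ[k⸨X⸩] (Fin d → k⸨X⸩))

/-- The approximation degree of `S` is at most `N`: some `k⟦t⟧`-basis of `S` has all its nonzero
structure constants of valuation at most `N`. -/
def ApproxDegreeLE (k : Type u) [Field k] (S : Type u) [CommRing S] [Algebra k⟦X⟧ S]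
    (N : ℕ) : Prop :=
  ∃ e : Basis (Fin (finrank k⟦X⟧ S)) k⟦X⟧ S, ∀ i j l,
    e.repr (e i * e j) l ≠ 0 → (e.repr (e i * e j) l).order ≤ N

open Pool.Agent.Helper33

/-- the data of the special fibre as a surjection with kernel `(t)`. -/
theorem exists_reduction {k : Type u} [Field k] {A : Type u} [CommRing A] [Algebra k A]
    {S : Type u} [CommRing S] [Algebra k⟦X⟧ S] (h : IsAbstractSmoothing k A S) :
    ∃ f : S →+* A, Function.Surjective f ∧ RingHom.ker f = Ideal.span {algebraMap k⟦X⟧ S X} ∧
      ∀ r, f (algebraMap k⟦X⟧ S r) = algebraMap k A (constantCoeff r) := by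
  obtain ⟨e, he⟩ := h.specialFibre
  refine ⟨(e : _ →+* A).comp (Ideal.Quotient.mk (Ideal.span {algebraMap k⟦X⟧ S X})), ?_, ?_, ?_⟩
  · intro a
    obtain ⟨y, rfl⟩ := e.surjective a
    obtain ⟨z, rfl⟩ := Ideal.Quotient.mk_surjective y
    exact ⟨z, rfl⟩
  · ext z
    rw [RingHom.mem_ker, RingHom.comp_apply]
    change e _ = 0 ↔ _
    rw [EmbeddingLike.map_eq_zero_iff, Ideal.Quotient.eq_zero_iff_mem]
  · intro r
    rw [RingHom.comp_apply]
    change e _ = _
    rw [← he]
    congr 1
    rw [Ideal.Quotient.eq, ← map_sub, sub_const_eq_X_mul_shift, map_mul]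
    exact Ideal.mul_mem_right _ _ (Ideal.mem_span_singleton_self _)

theorem ker_constantCoeff (k : Type u) [Field k] :
    RingHom.ker (constantCoeff (R := k)) = Ideal.span {(X : k⟦X⟧)} := by
  ext r
  rw [RingHom.mem_ker, Ideal.mem_span_singleton, X_dvd_iff]

/-- `A` smoothable: completely split smoothing exists. -/
theorem exists_completelySplit {k : Type u} [Field k] [IsAlgClosed k] {A : Type u} [CommRing A]
    [Algebra k A] (hA : IsSmoothable k A) :
    ∃ (S : Type u) (_ : CommRing S) (_ : Algebra k⟦X⟧ S), IsAbstractSmoothing k A S ∧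
      IsCompletelySplit k (finrank k A) S := by
  classical
  obtain ⟨M, iM, iM2, hM⟩ := hA
  have := hM.finite
  have := hM.flat
  have hfree : Module.Free k⟦X⟧ M := Module.free_of_flat_of_isLocalRing
  obtain ⟨f, hf, hfx, hfq⟩ := exists_reduction hM
  let b := Module.finBasis k⟦X⟧ M
  have hqs : Function.Surjective (constantCoeff (R := k)) := fun c => ⟨C c, by simp⟩
  obtain ⟨bb, hbb⟩ := exists_basis_special b X constantCoeff hqs (ker_constantCoeff k) f hf hfx hfq
  have hd : finrank k A = finrank k⟦X⟧ M := by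
    rw [finrank_eq_card_basis bb, Fintype.card_fin]
  -- the splitting field
  let K := k⸨X⸩
  let B := K ⊗[k⟦X⟧] M
  have hgr : Algebra.IsGeometricallyReduced K B := hM.geomReduced
  have hred : IsReduced (AlgebraicClosure K ⊗[K] B) :=
    (Algebra.isGeometricallyReduced_field_iff K B).mp hgr
  let c := Module.finBasis K B
  obtain ⟨L, hfd, hsep, hsplit⟩ := exists_splitting hred c
  -- the integral closure
  let S := integralClosure k⟦X⟧ L
  have hdd : IsDedekindDomain S := integralClosure.isDedekindDomain k⟦X⟧ K L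
  have hfin : Module.Finite k⟦X⟧ S := IsIntegralClosure.finite k⟦X⟧ K L S
  have hfrac : IsFractionRing S L := integralClosure.isFractionRing_of_finite_extension K L
  have hinjL : Function.Injective (algebraMap k⟦X⟧ L) := by
    rw [IsScalarTower.algebraMap_eq k⟦X⟧ K L]
    exact (algebraMap K L).injective.comp (IsFractionRing.injective k⟦X⟧ K)
  have hfaith : FaithfulSMul k⟦X⟧ S := by
    rw [faithfulSMul_iff_algebraMap_injective]
    intro x y hxy
    apply hinjL
    rw [IsScalarTower.algebraMap_apply k⟦X⟧ S L, IsScalarTower.algebraMap_apply k⟦X⟧ S L, hxy]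
  let algkS : Algebra k S := ((algebraMap k⟦X⟧ S).comp (C (R := k))).toAlgebra
  have htow : IsScalarTower k k⟦X⟧ S := IsScalarTower.of_algebraMap_eq fun _ => rfl
  obtain ⟨e⟩ := nonempty_algEquiv_of_finite k S
  have htnu : ¬ IsUnit (algebraMap k⟦X⟧ S X) := by
    intro hu
    obtain ⟨P, hP⟩ := Ideal.exists_maximal S
    exact hP.ne_top (Ideal.eq_top_of_isUnit_mem P (X_mem_of_isMaximal k P) hu)
  have hcompat : ∀ r : k⟦X⟧, constantCoeff ((e : S ≃+* k⟦X⟧) (algebraMap k⟦X⟧ S r)) =
      constantCoeff r := by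
    intro r
    have h1 : constantCoeff (e (algebraMap k⟦X⟧ S X)) = 0 := by
      by_contra hne
      apply htnu
      have hu : IsUnit (e (algebraMap k⟦X⟧ S X)) := by
        rw [PowerSeries.isUnit_iff_constantCoeff]
        exact isUnit_iff_ne_zero.mpr hne
      have := hu.map e.symm
      rwa [e.symm_apply_apply] at this
    have h2 : e (algebraMap k⟦X⟧ S (C (constantCoeff r))) = C (constantCoeff r) :=
      e.commutes (constantCoeff r)
    have h3 := eq_X_mul_shift_add_const r
    change constantCoeff (e (algebraMap k⟦X⟧ S r)) = constantCoeff r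
    rw [h3, map_add, map_mul, map_add, map_mul, map_add, map_mul, h1, h2]
    simp
  obtain ⟨S', i1, i2, hf1, hf2, hsp, f', hf', hker', hcomm'⟩ :=
    assemble2 (k := k) (R := k⟦X⟧) (K := K) (L := L) (S := S) (R' := k⟦X⟧) (K' := K) (M := M)
      (A := A) (e : S ≃+* k⟦X⟧) c hsplit b X constantCoeff hqs (ker_constantCoeff k) f hf hfx hfq
      constantCoeff X (ker_constantCoeff k) hcompat
  have hrank : finrank K (K ⊗[k⟦X⟧] M) = finrank k A := by
    rw [hd]
    exact finrank_baseChange
  rw [hrank] at hsp
  refine ⟨S', i1, i2, ⟨hf1, hf2, ?_, ?_⟩, hsp⟩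
  · rw [Algebra.isGeometricallyReduced_field_iff]
    obtain ⟨g⟩ := hsp
    let g1 : AlgebraicClosure K ⊗[K] (K ⊗[k⟦X⟧] S') ≃ₐ[K]
        AlgebraicClosure K ⊗[K] (Fin (finrank k A) → K) :=
      Algebra.TensorProduct.congr AlgEquiv.refl g
    let g2 : AlgebraicClosure K ⊗[K] (Fin (finrank k A) → K) ≃ₐ[K]
        (Fin (finrank k A) → AlgebraicClosure K) :=
      Algebra.TensorProduct.piScalarRight K K (AlgebraicClosure K) (Fin (finrank k A))
    exact isReduced_of_injective (g1.trans g2) (g1.trans g2).injective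
  · refine ⟨(Ideal.quotEquivOfEq hker'.symm).trans
      (RingHom.quotientKerEquivOfSurjective hf'), fun a => ?_⟩
    rw [RingEquiv.trans_apply, Ideal.quotEquivOfEq_mk]
    change f' (algebraMap k⟦X⟧ S' (C a)) = _
    rw [hcomm']
    simp

/-- The approximation degree of any abstract smoothing is zero. -/
theorem approxDegreeLE_zero {k : Type u} [Field k] [IsAlgClosed k] {A : Type u} [CommRing A]
    [Algebra k A] {S : Type u} [CommRing S] [Algebra k⟦X⟧ S] (h : IsAbstractSmoothing k A S) :
    ApproxDegreeLE k S 0 := by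
  classical
  have := h.finite
  have := h.flat
  have hfree : Module.Free k⟦X⟧ S := Module.free_of_flat_of_isLocalRing
  obtain ⟨f, hf, hfx, hfq⟩ := exists_reduction h
  let b := Module.finBasis k⟦X⟧ S
  have hqs : Function.Surjective (constantCoeff (R := k)) := fun c => ⟨C c, by simp⟩
  obtain ⟨bb, hbb⟩ := exists_basis_special b X constantCoeff hqs (ker_constantCoeff k) f hf hfx hfq
  obtain ⟨a, ha⟩ := exists_basis_structure_ne_zero bb
  obtain ⟨a', ha'⟩ := exists_lift_basis b constantCoeff (C (R := k)) (fun c => by simp) f hfq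
    bb hbb a
  refine ⟨a', fun i j l _ => ?_⟩
  have h1 : ∀ x : S, ∀ l, a.repr (f x) l = constantCoeff (a'.repr x l) := by
    intro x l
    conv_lhs => rw [← a'.sum_repr x]
    rw [map_sum, map_sum]
    have : ∀ m, f (a'.repr x m • a' m) = constantCoeff (a'.repr x m) • a m := by
      intro m
      rw [Algebra.smul_def, map_mul, hfq, ha', Algebra.smul_def]
    simp [this, Finsupp.single_apply]
  have h2 : constantCoeff (a'.repr (a' i * a' j) l) ≠ 0 := by
    rw [← h1, map_mul, ha', ha']
    exact ha i j l
  exact order_le 0 (by rwa [coeff_zero_eq_constantCoeff_apply])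

/-- Every smoothable finite scheme `Spec A` over an algebraically closed field has a completely
split abstract smoothing of approximation degree at most `0` (a fortiori at most `deg A`). -/
theorem result (k : Type u) [Field k] [IsAlgClosed k] (A : Type u) [CommRing A] [Algebra k A]
    [Module.Finite k A] (hA : IsSmoothable k A) :
    ∃ (S : Type u) (_ : CommRing S) (_ : Algebra k⟦X⟧ S), IsAbstractSmoothing k A S ∧
      IsCompletelySplit k (finrank k A) S ∧ ApproxDegreeLE k S 0 := by
  obtain ⟨S, i1, i2, h1, h2⟩ := exists_completelySplit hA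
  exact ⟨S, i1, i2, h1, h2, approxDegreeLE_zero h1⟩

end Pool.Agent.Results.MP_a8f336_ag.SplitSmoothing
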